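import Pool.Agent.R815.Frac.Round

/-!
# Sup-products of Hamming cubes have no uniform snowflake embeddings in Hilbert space
-/

set_option autoImplicit false

namespace Pool.Agent.R815.Frac

open Finset

/-- the sup-product of `2 ^ k` Hamming cubes of dimension `m` -/
abbrev Cube (k m : ℕ) : Type := Blk k → Hamming (fun _ : Fin m => ZMod 2)

theorem cube_add_self {k m : ℕ} (x : Cube k m) : x + x = 0 := by
  funext s
  apply Hamming.ofHamming.injective
  funext i
  exact CharTwo.add_self_eq_zero (Hamming.ofHamming (x s) i)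

/-- a unit vector in a block -/
def unit {k m : ℕ} (s : Blk k) (ω : Fin m) : Cube k m :=
  Pi.single s (Hamming.toHamming (Pi.single ω 1))

theorem norm_unit_sum_le {k m : ℕ} (ω : Blk k → Fin m) : ‖∑ t, unit t (ω t)‖ ≤ 1 := by
  have h : ∑ t, unit t (ω t) = fun t => Hamming.toHamming (Pi.single (ω t) (1 : ZMod 2)) :=
    Finset.univ_sum_single (fun t : Blk k =>
      (Hamming.toHamming (Pi.single (ω t) (1 : ZMod 2)) : Hamming (fun _ : Fin m => ZMod 2)))
  rw [h, pi_norm_le_iff_of_nonneg zero_le_one]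
  intro t
  rw [Hamming.norm_eq_hammingNorm, Hamming.ofHamming_toHamming]
  have : hammingNorm (Pi.single (ω t) (1 : ZMod 2) : Fin m → ZMod 2) ≤ 1 := by
    unfold hammingNorm
    rw [Finset.card_le_one]
    intro a ha b hb
    rw [Finset.mem_filter] at ha hb
    have h1 : a = ω t := by
      by_contra h
      exact ha.2 (Pi.single_eq_of_ne h _)
    have h2 : b = ω t := by
      by_contra h
      exact hb.2 (Pi.single_eq_of_ne h _)
    rw [h1, h2]
  exact_mod_cast this

theorem le_norm_unit_sum {k m : ℕ} (s : Blk k) (ω : Blk k → Fin m) (hω : Function.Injective ω) :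
    (2 : ℝ) ^ k ≤ ‖∑ t, unit s (ω t)‖ := by
  classical
  refine le_trans ?_ (norm_le_pi_norm _ s)
  have h : (∑ t, unit s (ω t)) s = Hamming.toHamming (∑ t, Pi.single (ω t) (1 : ZMod 2)) := by
    rw [Finset.sum_apply]
    have : ∀ t, unit s (ω t) s = Hamming.toHamming (Pi.single (ω t) (1 : ZMod 2)) :=
      fun t => Pi.single_eq_same _ _
    simp only [this]
    exact (map_sum (AddMonoidHom.mk' (Hamming.toHamming : (Fin m → ZMod 2) → Hamming _)
      (fun a b => rfl)) _ _).symm
  rw [h, Hamming.norm_eq_hammingNorm, Hamming.ofHamming_toHamming]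
  have h2 : 2 ^ k ≤ hammingNorm (∑ t, Pi.single (ω t) (1 : ZMod 2) : Fin m → ZMod 2) := by
    unfold hammingNorm
    rw [← card_blk k, ← Finset.card_univ, ← Finset.card_image_of_injective univ hω]
    apply Finset.card_le_card
    intro i hi
    rw [Finset.mem_image] at hi
    obtain ⟨t, -, rfl⟩ := hi
    rw [Finset.mem_filter]
    refine ⟨Finset.mem_univ _, ?_⟩
    rw [Finset.sum_apply, Finset.sum_eq_single t]
    · rw [Pi.single_eq_same]
      exact one_ne_zero
    · intro u _ hu
      exact Pi.single_eq_of_ne (fun h => hu (hω h.symm)) _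
    · intro h
      exact absurd (Finset.mem_univ _) h
  exact_mod_cast h2

theorem desc_bound (n m : ℕ) (hn : 0 < n) (hm : 2 * n ^ 2 ≤ m) :
    m ^ n ≤ 2 * m.descFactorial n := by
  have h1 := Nat.pow_sub_le_descFactorial m n
  have hnm : n ≤ m := by nlinarith
  have hm0 : 0 < m := by nlinarith
  have hmR : (0 : ℝ) < m := by exact_mod_cast hm0
  have h2 : (m : ℝ) ^ n ≤ 2 * ((m + 1 - n : ℕ) : ℝ) ^ n := by
    have h3 := one_add_mul_le_pow (R := ℝ) (a := -((n - 1 : ℝ) / m)) (by
      have : ((n : ℝ) - 1) / m ≤ 2 := by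
        rw [div_le_iff₀ hmR]
        have : (n : ℝ) ≤ m := by exact_mod_cast hnm
        linarith
      linarith) n
    have h4 : (1 : ℝ) + -((n - 1 : ℝ) / m) = ((m + 1 - n : ℕ) : ℝ) / m := by
      rw [Nat.cast_sub (by omega)]
      push_cast
      field_simp
      ring
    rw [h4, div_pow] at h3
    have h5 : (1 : ℝ) / 2 ≤ 1 + n * -((n - 1 : ℝ) / m) := by
      have : (n : ℝ) * ((n - 1) / m) ≤ 1 / 2 := by
        rw [← mul_div_assoc, div_le_iff₀ hmR]
        have h6 : (2 : ℝ) * n ^ 2 ≤ m := by exact_mod_cast hm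
        have h7 : (0 : ℝ) < n := by exact_mod_cast hn
        nlinarith
      linarith
    have h6 := h5.trans h3
    rw [le_div_iff₀ (pow_pos hmR n)] at h6
    linarith
  have h3 : ((m + 1 - n : ℕ) : ℝ) ^ n ≤ (m.descFactorial n : ℝ) := by exact_mod_cast h1
  have h4 : (m : ℝ) ^ n ≤ 2 * (m.descFactorial n : ℝ) := by linarith
  exact_mod_cast h4

theorem card_inj (k m : ℕ) (hm : 2 * 4 ^ k ≤ m) :
    Fintype.card (Blk k → Fin m) ≤
      2 * (Finset.univ.filter fun ω : Blk k → Fin m => Function.Injective ω).card := by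
  classical
  have h1 : (Finset.univ.filter fun ω : Blk k → Fin m => Function.Injective ω).card
      = m.descFactorial (2 ^ k) := by
    rw [← card_blk k, ← Fintype.card_subtype]
    rw [Fintype.card_congr (Equiv.subtypeInjectiveEquivEmbedding (Blk k) (Fin m)),
      Fintype.card_embedding_eq, Fintype.card_fin]
  rw [h1, Fintype.card_fun, Fintype.card_fin, card_blk]
  apply desc_bound _ _ (by positivity)
  rw [← pow_mul, mul_comm k 2, pow_mul]
  exact hm

theorem no_embed {H : Type*} [NormedAddCommGroup H] [InnerProductSpace ℝ H] {k m : ℕ}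
    (hm : 2 * 4 ^ k ≤ m) (h : Cube k m → H) {c C α : ℝ} (hc : 0 ≤ c) (hC : 0 ≤ C) (hα : 0 < α)
    (h1 : ∀ x y, c * dist x y ^ α ≤ ‖h x - h y‖) (h2 : ∀ x y, ‖h x - h y‖ ≤ C * dist x y ^ α) :
    c ^ 2 * (((2 : ℝ) ^ k) ^ α) ^ 2 ≤ 2 * C ^ 2 := by
  classical
  obtain ⟨s, hs⟩ := exists_block (G := Cube k m) cube_add_self h k (Fin m) unit
  have hd : ∀ x z : Cube k m, dist x (x + z) = ‖z‖ := by
    intro x z
    rw [dist_eq_norm, sub_add_cancel_left, norm_neg]
  set g : ℝ := (Fintype.card (Cube k m) : ℝ) with hg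
  have hg0 : 0 < g := by
    rw [hg]
    exact_mod_cast Fintype.card_pos
  -- upper bound
  have hup : ∑ ω : Blk k → Fin m, disp h (∑ t, unit t (ω t))
      ≤ Fintype.card (Blk k → Fin m) * (g * C ^ 2) := by
    have : ∀ ω : Blk k → Fin m, disp h (∑ t, unit t (ω t)) ≤ g * C ^ 2 := by
      intro ω
      unfold disp
      calc ∑ x, ‖h x - h (x + ∑ t, unit t (ω t))‖ ^ 2 ≤ ∑ _x : Cube k m, C ^ 2 := by
            apply sum_le_sum
            intro x _
            apply pow_le_pow_left₀ (norm_nonneg _)
            refine (h2 _ _).trans ?_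
            rw [hd]
            have := Real.rpow_le_one (norm_nonneg _) (norm_unit_sum_le ω) hα.le
            nlinarith
        _ = g * C ^ 2 := by rw [sum_const, card_univ, nsmul_eq_mul]
    calc _ ≤ ∑ _ω : Blk k → Fin m, g * C ^ 2 := sum_le_sum fun ω _ => this ω
      _ = _ := by rw [sum_const, card_univ, nsmul_eq_mul]
  -- lower bound
  have hlow : ((Finset.univ.filter fun ω : Blk k → Fin m => Function.Injective ω).card : ℝ) *
      (g * (c * ((2 : ℝ) ^ k) ^ α) ^ 2) ≤ ∑ ω : Blk k → Fin m, disp h (∑ t, unit s (ω t)) := by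
    calc _ = ∑ _ω ∈ Finset.univ.filter (fun ω : Blk k → Fin m => Function.Injective ω),
            g * (c * ((2 : ℝ) ^ k) ^ α) ^ 2 := by rw [sum_const, nsmul_eq_mul]
      _ ≤ ∑ ω ∈ Finset.univ.filter (fun ω : Blk k → Fin m => Function.Injective ω),
            disp h (∑ t, unit s (ω t)) := by
          apply sum_le_sum
          intro ω hω
          rw [Finset.mem_filter] at hω
          unfold disp
          calc g * (c * ((2 : ℝ) ^ k) ^ α) ^ 2 = ∑ _x : Cube k m, (c * ((2 : ℝ) ^ k) ^ α) ^ 2 := by
                rw [sum_const, card_univ, nsmul_eq_mul]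
            _ ≤ _ := by
                apply sum_le_sum
                intro x _
                apply pow_le_pow_left₀ (by positivity)
                refine le_trans ?_ (h1 _ _)
                rw [hd]
                apply mul_le_mul_of_nonneg_left _ hc
                exact Real.rpow_le_rpow (by positivity) (le_norm_unit_sum s ω hω.2) hα.le
      _ ≤ _ := by
          apply sum_le_sum_of_subset_of_nonneg (filter_subset _ _)
          intro ω _ _
          unfold disp
          positivity
  have hcard := card_inj k m hm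
  have hcard' : (Fintype.card (Blk k → Fin m) : ℝ) ≤
      2 * ((Finset.univ.filter fun ω : Blk k → Fin m => Function.Injective ω).card : ℝ) := by
    exact_mod_cast hcard
  have hpos : 0 < (Fintype.card (Blk k → Fin m) : ℝ) := by
    have hm0 : 0 < m := lt_of_lt_of_le (by positivity) hm
    haveI : Nonempty (Fin m) := ⟨⟨0, hm0⟩⟩
    exact_mod_cast Fintype.card_pos
  have key := hlow.trans (hs.trans hup)
  rw [mul_pow] at key
  set N : ℝ := (Fintype.card (Blk k → Fin m) : ℝ)
  set M : ℝ := ((Finset.univ.filter fun ω : Blk k → Fin m => Function.Injective ω).card : ℝ)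
  set L : ℝ := c ^ 2 * (((2 : ℝ) ^ k) ^ α) ^ 2
  have hL : 0 ≤ L := by positivity
  have h3 : N / 2 * (g * L) ≤ N * (g * C ^ 2) := by
    refine le_trans ?_ key
    apply mul_le_mul_of_nonneg_right _ (by positivity)
    linarith
  have h4 : (N * g) * L ≤ (N * g) * (2 * C ^ 2) := by nlinarith
  exact le_of_mul_le_mul_left h4 (by positivity)

end Pool.Agent.R815.Frac
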