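import Pool.Agent.R815.Frac.Cube

/-!
# A contraction of the line onto a set containing scaled copies of given finite metric spaces
-/

set_option autoImplicit false

namespace Pool.Agent.R815.Frac

open Finset

/-- tent functions with disjoint supports -/
noncomputable def tent (j : ℕ) (t : ℝ) : ℝ := max 0 (1 - 2 ^ (j + 1) * |t - (1 / 2) ^ j|)

theorem tent_nonneg (j : ℕ) (t : ℝ) : 0 ≤ tent j t := le_max_left _ _

theorem tent_le_one (j : ℕ) (t : ℝ) : tent j t ≤ 1 := by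
  unfold tent
  apply max_le zero_le_one
  have : 0 ≤ (2 : ℝ) ^ (j + 1) * |t - (1 / 2) ^ j| := by positivity
  linarith

theorem tent_lip (j : ℕ) (t t' : ℝ) : |tent j t - tent j t'| ≤ 2 ^ (j + 1) * |t - t'| := by
  unfold tent
  rw [max_comm 0, max_comm 0]
  refine (abs_max_sub_max_le_abs _ _ _).trans ?_
  rw [show (1 - 2 ^ (j + 1) * |t - (1 / 2) ^ j|) - (1 - 2 ^ (j + 1) * |t' - (1 / 2) ^ j|)
    = 2 ^ (j + 1) * (|t' - (1 / 2) ^ j| - |t - (1 / 2) ^ j|) by ring, abs_mul,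
    abs_of_nonneg (by positivity : (0 : ℝ) ≤ 2 ^ (j + 1))]
  apply mul_le_mul_of_nonneg_left _ (by positivity)
  refine (abs_abs_sub_abs_le _ _).trans ?_
  rw [sub_sub_sub_cancel_right, abs_sub_comm]

theorem tent_self (j : ℕ) : tent j ((1 / 2) ^ j) = 1 := by
  simp [tent]

theorem tent_ne {i j : ℕ} (h : i ≠ j) : tent i ((1 / 2) ^ j) = 0 := by
  unfold tent
  apply max_eq_left
  have h1 : (1 : ℝ) ≤ 2 ^ (i + 1) * |(1 / 2) ^ j - (1 / 2) ^ i| := by
    rcases lt_or_gt_of_ne h with h | h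
    · have h2 : ((1 : ℝ) / 2) ^ j ≤ (1 / 2) ^ (i + 1) :=
        pow_le_pow_of_le_one (by norm_num) (by norm_num) h
      have h3 : (1 / 2 : ℝ) ^ (i + 1) ≤ |(1 / 2) ^ j - (1 / 2) ^ i| := by
        rw [abs_sub_comm]
        refine le_trans ?_ (le_abs_self _)
        have : ((1 : ℝ) / 2) ^ i = 2 * (1 / 2) ^ (i + 1) := by rw [pow_succ]; ring
        linarith
      calc (1 : ℝ) = 2 ^ (i + 1) * (1 / 2) ^ (i + 1) := by rw [← mul_pow]; norm_num
        _ ≤ _ := mul_le_mul_of_nonneg_left h3 (by positivity)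
    · have h2 : ((1 : ℝ) / 2) ^ i ≤ (1 / 2) ^ (j + 1) :=
        pow_le_pow_of_le_one (by norm_num) (by norm_num) h
      have h3 : (1 / 2 : ℝ) ^ (i + 1) ≤ |(1 / 2) ^ j - (1 / 2) ^ i| := by
        refine le_trans ?_ (le_abs_self _)
        have h4 : ((1 : ℝ) / 2) ^ j = 2 * (1 / 2) ^ (j + 1) := by rw [pow_succ]; ring
        have h5 : ((1 : ℝ) / 2) ^ (i + 1) ≤ (1 / 2) ^ i :=
          pow_le_pow_of_le_one (by norm_num) (by norm_num) (Nat.le_succ i)
        linarith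
      calc (1 : ℝ) = 2 ^ (i + 1) * (1 / 2) ^ (i + 1) := by rw [← mul_pow]; norm_num
        _ ≤ _ := mul_le_mul_of_nonneg_left h3 (by positivity)
  linarith

theorem hedgehog {E : Type*} [NormedAddCommGroup E] [NormedSpace ℝ E] [CompleteSpace E]
    (v : ℕ → E) (hv : ∀ j, ‖v j‖ ≤ 1 / (8 * 4 ^ j)) :
    ∃ Q : ℝ → E, (∀ t t', dist (Q t) (Q t') ≤ 1 / 2 * dist t t') ∧ ∀ j, Q ((1 / 2) ^ j) = v j := by
  have hgeo : Summable fun j : ℕ => (1 / 4 : ℝ) * (1 / 2) ^ j :=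
    (summable_geometric_of_lt_one (by norm_num) (by norm_num)).mul_left _
  have hb : ∀ j t, ‖tent j t • v j‖ ≤ (1 / 4 : ℝ) * (1 / 2) ^ j := by
    intro j t
    rw [norm_smul, Real.norm_eq_abs, abs_of_nonneg (tent_nonneg j t)]
    calc tent j t * ‖v j‖ ≤ 1 * (1 / (8 * 4 ^ j)) :=
          mul_le_mul (tent_le_one j t) (hv j) (norm_nonneg _) zero_le_one
      _ ≤ (1 / 4 : ℝ) * (1 / 2) ^ j := by
          rw [one_mul, div_pow, one_pow, div_mul_div_comm, one_mul]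
          apply one_div_le_one_div_of_le (by positivity)
          have : (2 : ℝ) ^ j ≤ 4 ^ j := pow_le_pow_left₀ (by norm_num) (by norm_num) j
          nlinarith [pow_pos (show (0 : ℝ) < 2 by norm_num) j]
  have hs : ∀ t, Summable fun j => tent j t • v j := fun t =>
    Summable.of_norm_bounded hgeo (fun j => hb j t)
  refine ⟨fun t => ∑' j, tent j t • v j, ?_, ?_⟩
  · intro t t'
    rw [dist_eq_norm, ← (hs t).tsum_sub (hs t')]
    have h1 : ∀ j, ‖tent j t • v j - tent j t' • v j‖ ≤ (1 / 4 * |t - t'|) * (1 / 2) ^ j := by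
      intro j
      rw [← sub_smul, norm_smul, Real.norm_eq_abs]
      calc |tent j t - tent j t'| * ‖v j‖ ≤ (2 ^ (j + 1) * |t - t'|) * (1 / (8 * 4 ^ j)) :=
            mul_le_mul (tent_lip j t t') (hv j) (norm_nonneg _) (by positivity)
        _ = (1 / 4 * |t - t'|) * (1 / 2) ^ j := by
            rw [show (4 : ℝ) ^ j = 2 ^ j * 2 ^ j by rw [← mul_pow]; norm_num, pow_succ, div_pow,
              one_pow]
            field_simp
            ring
    have hs2 : Summable fun j : ℕ => (1 / 4 * |t - t'|) * (1 / 2 : ℝ) ^ j :=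
      (summable_geometric_of_lt_one (by norm_num) (by norm_num)).mul_left _
    refine (tsum_of_norm_bounded hs2.hasSum h1).trans ?_
    rw [tsum_mul_left, tsum_geometric_of_lt_one (by norm_num) (by norm_num), Real.dist_eq]
    linarith [abs_nonneg (t - t')]
  · intro j
    show ∑' i, tent i ((1 / 2) ^ j) • v i = v j
    rw [tsum_eq_single j, tent_self, one_smul]
    intro i hi
    rw [tent_ne hi, zero_smul]

/-- the Banach space of bounded sequences -/
abbrev Linf : Type := lp (fun _ : ℕ => ℝ) ⊤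

theorem exists_contraction (X : ℕ → Type) [∀ k, MetricSpace (X k)] [∀ k, Finite (X k)] :
    ∃ Q : ℝ → Linf, (∀ t t', dist (Q t) (Q t') ≤ 1 / 2 * dist t t') ∧
      ∀ k, ∃ δ : ℝ, 0 < δ ∧ ∃ ι : X k → ℝ, (∀ x, ι x ∈ Set.Icc (0 : ℝ) 1) ∧
        ∀ x y, dist (Q (ι x)) (Q (ι y)) = δ * dist x y := by
  classical
  have hκ : ∀ k, ∃ κ : X k → Linf, Isometry κ := fun k =>
    KuratowskiEmbedding.exists_isometric_embedding (X k)
  choose κ hκ using hκ
  have : Encodable (Σ k, X k) := Encodable.ofCountable _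
  have hδ : ∀ k, ∃ δ : ℝ, 0 < δ ∧ ∀ x : X k,
      δ * ‖κ k x‖ ≤ 1 / (8 * 4 ^ (Encodable.encode (⟨k, x⟩ : Σ k, X k))) := by
    intro k
    have := Fintype.ofFinite (X k)
    let S : ℝ := 1 + ∑ x : X k, 8 * 4 ^ (Encodable.encode (⟨k, x⟩ : Σ k, X k)) * ‖κ k x‖
    have hS : 0 < S := by positivity
    refine ⟨1 / S, by positivity, fun x => ?_⟩
    rw [one_div_mul_eq_div, div_le_div_iff₀ hS (by positivity), one_mul]
    have h1 : 8 * 4 ^ (Encodable.encode (⟨k, x⟩ : Σ k, X k)) * ‖κ k x‖ ≤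
        ∑ x : X k, 8 * 4 ^ (Encodable.encode (⟨k, x⟩ : Σ k, X k)) * ‖κ k x‖ :=
      Finset.single_le_sum (f := fun x : X k =>
        8 * 4 ^ (Encodable.encode (⟨k, x⟩ : Σ k, X k)) * ‖κ k x‖)
        (fun i _ => by positivity) (Finset.mem_univ x)
    calc ‖κ k x‖ * (8 * 4 ^ (Encodable.encode (⟨k, x⟩ : Σ k, X k)))
        = 8 * 4 ^ (Encodable.encode (⟨k, x⟩ : Σ k, X k)) * ‖κ k x‖ := by ring
      _ ≤ S := by linarith
  choose δ hδ0 hδ using hδ
  let v : ℕ → Linf := fun j =>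
    ((Encodable.decode₂ (Σ k, X k) j).map fun p => δ p.1 • κ p.1 p.2).getD 0
  have hv : ∀ p : (Σ k, X k), v (Encodable.encode p) = δ p.1 • κ p.1 p.2 := by
    intro p
    simp only [v, Encodable.encodek₂]
    rfl
  have hvb : ∀ j, ‖v j‖ ≤ 1 / (8 * 4 ^ j) := by
    intro j
    rcases h : (Encodable.decode₂ (Σ k, X k) j) with _ | p
    · simp only [v, h, Option.map_none, Option.getD_none, norm_zero]
      positivity
    · rw [Encodable.decode₂_eq_some] at h
      rw [← h, hv, norm_smul, Real.norm_eq_abs, abs_of_pos (hδ0 _)]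
      exact hδ p.1 p.2
  obtain ⟨Q, hQ1, hQ2⟩ := hedgehog v hvb
  refine ⟨Q, hQ1, fun k => ⟨δ k, hδ0 k,
    fun x => (1 / 2) ^ (Encodable.encode (⟨k, x⟩ : Σ k, X k)), ?_, ?_⟩⟩
  · intro x
    exact ⟨by positivity, pow_le_one₀ (by norm_num) (by norm_num)⟩
  · intro x y
    rw [hQ2, hQ2, hv, hv, dist_eq_norm, ← smul_sub, norm_smul, Real.norm_eq_abs,
      abs_of_pos (hδ0 k), ← dist_eq_norm, (hκ k).dist_eq]

end Pool.Agent.R815.Frac
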