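import Mathlib

/-!
# A roundness inequality in Hilbert space and its iteration
-/

set_option autoImplicit false

namespace Pool.Agent.R815.Frac

open Finset

section Hilbert

variable {H : Type*} [NormedAddCommGroup H] [InnerProductSpace ℝ H]

theorem sum_sub_sq {I : Type*} [Fintype I] (a b : I → H) :
    ∑ i, ∑ j, ‖a i - b j‖ ^ 2 = Fintype.card I * ∑ i, ‖a i‖ ^ 2 + Fintype.card I * ∑ i, ‖b i‖ ^ 2
      - 2 * inner ℝ (∑ i, a i) (∑ i, b i) := by
  have h1 : ∀ i j, ‖a i - b j‖ ^ 2 = ‖a i‖ ^ 2 + ‖b j‖ ^ 2 - 2 * inner ℝ (a i) (b j) := by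
    intro i j
    rw [norm_sub_sq_real]
    ring
  simp only [h1, sum_sub_distrib, sum_add_distrib, sum_const, card_univ, nsmul_eq_mul, ← mul_sum,
    sum_inner, inner_sum]
  congr 2
  exact sum_comm

theorem hilbert_ineq {I : Type*} [Fintype I] (a b : I → H) :
    ∑ i, ∑ j, ‖a i - a j‖ ^ 2 + ∑ i, ∑ j, ‖b i - b j‖ ^ 2 ≤ 2 * ∑ i, ∑ j, ‖a i - b j‖ ^ 2 := by
  rw [sum_sub_sq, sum_sub_sq, sum_sub_sq]
  have h := norm_sub_sq_real (∑ i, a i) (∑ i, b i)
  have h2 := sq_nonneg ‖(∑ i, a i) - ∑ i, b i‖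
  rw [real_inner_self_eq_norm_sq, real_inner_self_eq_norm_sq]
  nlinarith

end Hilbert

section Group

variable {H : Type*} [NormedAddCommGroup H] [InnerProductSpace ℝ H]
variable {G : Type*} [AddCommGroup G] [Fintype G]

/-- the averaged squared displacement -/
noncomputable def disp (h : G → H) (z : G) : ℝ := ∑ x, ‖h x - h (x + z)‖ ^ 2

theorem disp_sub (h : G → H) (a b : G) : disp h (a - b) = ∑ x, ‖h (x + a) - h (x + b)‖ ^ 2 := by
  rw [disp, ← Equiv.sum_comp (Equiv.addRight b)]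
  apply sum_congr rfl
  intro x _
  rw [Equiv.coe_addRight, show x + b + (a - b) = x + a by abel, norm_sub_rev]

theorem disp_ineq {I : Type*} [Fintype I] (h : G → H) (a b : I → G) :
    ∑ i, ∑ j, disp h (a i - a j) + ∑ i, ∑ j, disp h (b i - b j)
      ≤ 2 * ∑ i, ∑ j, disp h (a i - b j) := by
  have key : ∀ u v : I → G, ∑ i, ∑ j, disp h (u i - v j)
      = ∑ x, ∑ i, ∑ j, ‖h (x + u i) - h (x + v j)‖ ^ 2 := by
    intro u v
    simp only [disp_sub]
    rw [sum_comm' (s := univ) (t := fun _ => univ) (t' := univ) (s' := fun _ => univ) (by simp)]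
    rw [sum_comm]
    conv_rhs => rw [sum_comm]
    apply sum_congr rfl
    intro i _
    rw [sum_comm]
  rw [key, key, key, ← sum_add_distrib, mul_sum]
  apply sum_le_sum
  intro x _
  exact hilbert_ineq (fun i => h (x + a i)) (fun i => h (x + b i))

/-- `2 ^ k` blocks -/
def Blk : ℕ → Type
  | 0 => Unit
  | (k + 1) => Blk k × Bool

instance instFintypeBlk : ∀ k, Fintype (Blk k)
  | 0 => inferInstanceAs (Fintype Unit)
  | (k + 1) => by
    haveI := instFintypeBlk k
    exact inferInstanceAs (Fintype (Blk k × Bool))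

instance instDecidableEqBlk : ∀ k, DecidableEq (Blk k)
  | 0 => inferInstanceAs (DecidableEq Unit)
  | (k + 1) => by
    haveI := instDecidableEqBlk k
    exact inferInstanceAs (DecidableEq (Blk k × Bool))

theorem card_blk (k : ℕ) : Fintype.card (Blk k) = 2 ^ k := by
  induction k with
  | zero => rfl
  | succ k ih =>
    have : Fintype.card (Blk (k + 1)) = Fintype.card (Blk k × Bool) := rfl
    rw [this, Fintype.card_prod, ih, Fintype.card_bool, pow_succ]

/-- splitting functions on `Blk k × Bool` -/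
def splitEquiv (k : ℕ) (Ω : Type) : (Blk k → Ω × Ω) ≃ (Blk (k + 1) → Ω) where
  toFun g := fun p : Blk k × Bool => if p.2 then (g p.1).2 else (g p.1).1
  invFun ω := fun t => (ω (t, false), ω (t, true))
  left_inv g := by
    funext t
    simp
  right_inv ω := by
    funext p
    obtain ⟨t, b⟩ := p
    cases b <;> simp

theorem sum_blk_succ {k : ℕ} {Ω : Type} (V : Blk (k + 1) → Ω → G) (g : Blk k → Ω × Ω) :
    ∑ t, V t (splitEquiv k Ω g t) = ∑ t, (V (t, false) (g t).1 + V (t, true) (g t).2) := by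
  have h : ∑ t, V t (splitEquiv k Ω g t)
      = ∑ t : Blk k × Bool, V t (if t.2 then (g t.1).2 else (g t.1).1) := rfl
  rw [h, Fintype.sum_prod_type]
  apply sum_congr rfl
  intro t _
  rw [Fintype.sum_bool, add_comm]
  rfl

theorem sum_split {k : ℕ} {Ω : Type} [Fintype Ω] (hG : ∀ x : G, x + x = 0) (h : G → H)
    (V : Blk (k + 1) → Ω → G) :
    ∑ ω : Blk (k + 1) → Ω, disp h (∑ t, V t (ω t))
      = ∑ α : Blk k → Ω, ∑ β : Blk k → Ω,
        disp h (∑ t, V (t, false) (α t) - ∑ t, V (t, true) (β t)) := by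
  classical
  have hneg : ∀ x : G, -x = x := fun x => neg_eq_of_add_eq_zero_left (hG x)
  rw [← Equiv.sum_comp (splitEquiv k Ω)]
  rw [← Equiv.sum_comp (Equiv.arrowProdEquivProdArrow (Blk k) (fun _ => Ω) (fun _ => Ω)).symm]
  rw [Fintype.sum_prod_type]
  apply sum_congr rfl
  intro α _
  apply sum_congr rfl
  intro β _
  rw [sum_blk_succ, sum_add_distrib, sub_eq_add_neg, hneg]
  rfl

theorem exists_block (hG : ∀ x : G, x + x = 0) (h : G → H) (k : ℕ) :
    ∀ (Ω : Type) [Fintype Ω] (U : Blk k → Ω → G), ∃ s,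
      ∑ ω : Blk k → Ω, disp h (∑ t, U s (ω t)) ≤ ∑ ω : Blk k → Ω, disp h (∑ t, U t (ω t)) := by
  classical
  have hneg : ∀ x : G, -x = x := fun x => neg_eq_of_add_eq_zero_left (hG x)
  induction k with
  | zero =>
    intro Ω _ U
    refine ⟨(), le_of_eq ?_⟩
    rfl
  | succ k ih =>
    intro Ω _ U
    have half : ∀ b : Bool, ∃ s : Blk (k + 1), ∑ ω : Blk (k + 1) → Ω, disp h (∑ t, U s (ω t))
        ≤ ∑ α : Blk k → Ω, ∑ β : Blk k → Ω,
          disp h (∑ t, U (t, b) (α t) - ∑ t, U (t, b) (β t)) := by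
      intro b
      obtain ⟨s, hs⟩ := ih (Ω × Ω) (fun t p => U (t, b) p.1 + U (t, b) p.2)
      refine ⟨(s, b), ?_⟩
      have e1 : ∑ ω : Blk (k + 1) → Ω, disp h (∑ t, U (s, b) (ω t))
          = ∑ ω : Blk k → Ω × Ω, disp h (∑ t, (U (s, b) (ω t).1 + U (s, b) (ω t).2)) := by
        rw [← Equiv.sum_comp (splitEquiv k Ω)]
        apply sum_congr rfl
        intro g _
        rw [sum_blk_succ (fun _ => U (s, b))]
      have e2 : ∑ ω : Blk k → Ω × Ω, disp h (∑ t, (U (t, b) (ω t).1 + U (t, b) (ω t).2))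
          = ∑ α : Blk k → Ω, ∑ β : Blk k → Ω,
          disp h (∑ t, U (t, b) (α t) - ∑ t, U (t, b) (β t)) := by
        rw [← Equiv.sum_comp (Equiv.arrowProdEquivProdArrow (Blk k) (fun _ => Ω)
          (fun _ => Ω)).symm]
        rw [Fintype.sum_prod_type]
        apply sum_congr rfl
        intro α _
        apply sum_congr rfl
        intro β _
        rw [sum_add_distrib, sub_eq_add_neg, hneg]
        rfl
      rw [e1, ← e2]
      exact hs
    obtain ⟨s₁, h₁⟩ := half false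
    obtain ⟨s₂, h₂⟩ := half true
    have h3 := disp_ineq h (fun α : Blk k → Ω => ∑ t, U (t, false) (α t))
      (fun α : Blk k → Ω => ∑ t, U (t, true) (α t))
    rw [sum_split hG h U]
    rcases le_total (∑ ω : Blk (k + 1) → Ω, disp h (∑ t, U s₁ (ω t)))
      (∑ ω : Blk (k + 1) → Ω, disp h (∑ t, U s₂ (ω t))) with h4 | h4
    · exact ⟨s₁, by linarith⟩
    · exact ⟨s₂, by linarith⟩

end Group

end Pool.Agent.R815.Frac
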